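import Pool.Agent.N64.AF.Q
import Pool.Agent.N64.AF.SE4

/-!
# E5: explicit lower bounds (helper701 for project AF of helper64)
-/

set_option autoImplicit false
set_option linter.unusedSectionVars false

open CategoryTheory Limits MonoidalCategory Module Filter Topology
open Pool.Agent.Y112.SR Pool.Agent.Y112.KD
open Pool.Agent.Y116.MT (tr)
open scoped ENNReal

namespace Pool.Agent.N701.AFE5

open Pool.Agent.N64.AF

universe v u w t x

variable {C : Type u} [Category.{v} C] [Preadditive C] [MonoidalCategory C]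
  [MonoidalPreadditive C] [SymmetricCategory C] [RightRigidCategory C]
  {Λ : Type t} [Field Λ] [CharZero Λ] [Linear Λ C] [MonoidalLinear Λ C]
  {K : Type w} [Field K] [IsAlgClosed K] [Algebra Λ K] {R : SuperRealisation C K}

lemma numRank_zero {T : C} [ExactPairing T T] (h : IsPow Λ R T) : numRank Λ (tp T 0) = 1 := by
  have h1 : 0 < numRank Λ (tp T 0) := (numRank_mono h 0).1
  have h2 : numRank Λ (tp T 0) ≤ 1 := by
    unfold numRank
    refine finrank_le_one (Submodule.Quotient.mk (𝟙 (𝟙_ C))) ?_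
    intro a
    obtain ⟨c, rfl⟩ := Submodule.mkQ_surjective _ a
    obtain ⟨q, hq⟩ := h.real.unit c
    refine ⟨q, ?_⟩
    rw [hq]
    rfl
  omega

/-- the rate for the numerical ranks -/
lemma rate {T : C} [ExactPairing T T] (h : IsPow Λ R T) (m n : ℕ) :
    (bt R T : ℝ) ^ m * (1 - ((m : ℝ) + 1) * (bt R T : ℝ) ^ 3 *
      (Real.log ((n / 2 : ℕ) + 2) / ((n / 2 : ℕ) + 1))) *
      cmpSeq (fun n => numRank Λ (tp T n)) (bt R T) n ≤ numRank Λ (tp T (n + m)) := by
  have hR := h.real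
  have hT := h.cplus
  have hb := bt_pos h
  have hcp := fun n => cplus_tp hR hT n
  have hrk : ∀ m, IsRk R (𝟙 (tp T m)) (bt R T ^ m) := fun m => by
    have h1 := isRk_id R (tp T m)
    rwa [bt_tp] at h1
  have htp : ∀ m n k : ℕ, m + n = k →
      nr Λ (𝟙 (tp T m)) (𝟙 (tp T n)) = numRank Λ (tp T k) := by
    intro m n k hk
    rw [nr_tp hR T m n, hk]
  refine rate_cmpSeq (β := fun n => numRank Λ (tp T n)) hb (numRank_zero h) ?_ ?_ ?_ ?_ ?_ m n
  · intro n
    have h1 := nr_sq_le hR (hcp n) (hcp (n + 2)) (numIdem_id (tp T n)) (numIdem_id (tp T (n + 2)))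
    rw [htp n (n + 2) (2 * n + 2) (by ring), htp n n (2 * n) (by ring),
      htp (n + 2) (n + 2) (2 * n + 4) (by ring)] at h1
    exact h1
  · intro n
    have h1 := nr_le_cmpSeq h (numIdem_id (tp T 2)) (hrk 2) (2 * n)
    rw [htp 2 (2 * n) (2 * n + 2) (by ring), Pool.Agent.N505.AFE2.cmpSeq_even] at h1
    exact h1
  · intro n
    have h1 := growth hR hT n
    rw [htp n n (2 * n) (by ring)] at h1
    exact h1
  · intro n
    have h1 := nr_le_cmpSeq h (numIdem_id (tp T 1)) (hrk 1) (2 * n)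
    rw [htp 1 (2 * n) (2 * n + 1) (by ring), Pool.Agent.N505.AFE2.cmpSeq_even, pow_one] at h1
    exact h1
  · intro n
    obtain ⟨i, r, hir⟩ := h.retract
    have hbb : bt R T ≤ bt R T ^ 2 := by
      rw [pow_two]
      exact Nat.le_mul_of_pos_right _ hb
    let ι : tp T 2 ⟶ tp T 2 := tp T 1 ◁ (r ≫ i)
    have hι : ι = (tp T 1 ◁ r ≫ (ρ_ (tp T 1)).hom) ≫ (ρ_ (tp T 1)).inv ≫ tp T 1 ◁ i := by
      show tp T 1 ◁ (r ≫ i) = _
      rw [Category.assoc, Iso.hom_inv_id_assoc, MonoidalCategory.whiskerLeft_comp]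
    have hid : NumIdem ι := by
      have h1 : ι ≫ ι = ι := by
        show tp T 1 ◁ (r ≫ i) ≫ tp T 1 ◁ (r ≫ i) = tp T 1 ◁ (r ≫ i)
        rw [← MonoidalCategory.whiskerLeft_comp]
        congr 1
        rw [Category.assoc, reassoc_of% hir]
      unfold NumIdem
      rw [h1, sub_self]
      exact (numIdeal Λ _ _).zero_mem
    have hιrk : IsRk R ι (bt R T) := by
      have h1 := isRk_tensor (hrk 1) (Pool.Agent.N505.AFE2.isRk_one R i r hir)
      rw [pow_one, mul_one, MonoidalCategory.id_tensorHom] at h1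
      exact h1
    have hc : IsRk R (𝟙 (tp T 2) - ι) (bt R T ^ 2 - bt R T) := by
      refine isRk_compl hιrk ?_
      rw [bt_tp]
      omega
    have h1 := nr_le_cmpSeq h (numIdem_compl hid) hc (2 * n)
    have h2 := nr_add hR hid (𝟙 (tp T (2 * n)))
    have h3 : nr Λ ι (𝟙 (tp T (2 * n))) = numRank Λ (tp T (2 * n + 1)) := by
      rw [hι, nr_retract hR ((ρ_ (tp T 1)).inv ≫ tp T 1 ◁ i) (tp T 1 ◁ r ≫ (ρ_ (tp T 1)).hom)
        (by rw [Category.assoc, ← MonoidalCategory.whiskerLeft_comp_assoc, hir,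
              MonoidalCategory.whiskerLeft_id, Category.id_comp, Iso.inv_hom_id])
        (𝟙 (tp T (2 * n))), htp 1 (2 * n) (2 * n + 1) (by ring)]
    rw [htp 2 (2 * n) (2 * n + 2) (by ring), h3] at h2
    rw [Pool.Agent.N505.AFE2.cmpSeq_even] at h1
    show numRank Λ (tp T (2 * n + 2)) ≤ numRank Λ (tp T (2 * n + 1)) +
      (bt R T ^ 2 - bt R T) * numRank Λ (tp T (2 * n))
    rw [← h2]
    exact Nat.add_le_add_left h1 _

lemma retract_le {T : C} (h : IsPow Λ R T) (m k : ℕ) :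
    ∃ (i : tp T m ⟶ tp T (m + k)) (r : tp T (m + k) ⟶ tp T m), i ≫ r = 𝟙 (tp T m) := by
  induction k with
  | zero => exact ⟨𝟙 _, 𝟙 _, Category.id_comp _⟩
  | succ k ih =>
    obtain ⟨i, r, hir⟩ := ih
    obtain ⟨i', r', hir'⟩ := exists_retract_tp h (m + k)
    refine ⟨i ≫ i', r' ≫ r, ?_⟩
    rw [Category.assoc, ← Category.assoc i', hir', Category.id_comp, hir]

lemma fin_of_retract {Y Z : C} (F : C ⥤ ModuleCat.{x} Λ) (i : Y ⟶ Z) (r : Z ⟶ Y)
    (hir : i ≫ r = 𝟙 Y) [Module.Finite Λ (F.obj Z)] :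
    Module.Finite Λ (F.obj Y) ∧ finrank Λ (F.obj Y) ≤ finrank Λ (F.obj Z) := by
  have h2 : F.map i ≫ F.map r = 𝟙 _ := by rw [← F.map_comp, hir, F.map_id]
  have h3 : ∀ a, (F.map r).hom ((F.map i).hom a) = a := fun a =>
    congrArg (fun g : F.obj Y ⟶ F.obj Y => g.hom a) h2
  refine ⟨Module.Finite.of_surjective (F.map r).hom fun a => ⟨(F.map i).hom a, h3 a⟩, ?_⟩
  refine LinearMap.finrank_le_finrank_of_injective (f := (F.map i).hom) ?_
  intro a b hab
  rw [← h3 a, ← h3 b, hab]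

lemma fin_le {T : C} (h : IsPow Λ R T) (F : C ⥤ ModuleCat.{x} Λ) {m n : ℕ} (hmn : m ≤ n)
    [Module.Finite Λ (F.obj (tp T n))] :
    Module.Finite Λ (F.obj (tp T m)) ∧ finrank Λ (F.obj (tp T m)) ≤ finrank Λ (F.obj (tp T n)) := by
  obtain ⟨k, rfl⟩ := Nat.exists_eq_add_of_le hmn
  obtain ⟨i, r, hir⟩ := retract_le h m k
  exact fin_of_retract F i r hir

lemma le_cmp {T : C} [ExactPairing T T] (h : IsPow Λ R T) (k n : ℕ) :
    numRank Λ (tp T (k + n)) ≤ bt R T ^ k * cmpSeq (fun n => numRank Λ (tp T n)) (bt R T) n := by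
  have h1 := isRk_id R (tp T k)
  rw [bt_tp] at h1
  have h2 := nr_le_cmpSeq h (numIdem_id (tp T k)) h1 n
  rwa [nr_tp h.real T k n] at h2

lemma mono_le {T : C} [ExactPairing T T] (h : IsPow Λ R T) {m n : ℕ} (hmn : m ≤ n) :
    numRank Λ (tp T m) ≤ numRank Λ (tp T n) :=
  monotone_nat_of_le_succ (f := fun n => numRank Λ (tp T n)) (fun n => (numRank_mono h n).2.1) hmn

lemma cmp_le {T : C} [ExactPairing T T] (h : IsPow Λ R T) (n : ℕ) :
    cmpSeq (fun n => numRank Λ (tp T n)) (bt R T) n ≤ bt R T * numRank Λ (tp T n) := by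
  have hb := bt_pos h
  unfold cmpSeq
  refine Nat.mul_le_mul ?_ (mono_le h (by omega))
  have h2 : n % 2 = 0 ∨ n % 2 = 1 := by omega
  rcases h2 with h2 | h2
  · rw [h2, pow_zero]; exact hb
  · rw [h2, pow_one]

lemma L_nonneg (k : ℕ) : 0 ≤ Real.log ((k : ℕ) + 2) / ((k : ℕ) + 1 : ℝ) := by
  have : (0 : ℝ) ≤ k := Nat.cast_nonneg k
  exact div_nonneg (Real.log_nonneg (by linarith)) (by linarith)

/-- the phantom case -/
lemma case2 {T : C} [ExactPairing T T] (h : IsPow Λ R T) (F : C ⥤ ModuleCat.{x} Λ)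
    [F.Additive] [F.Linear Λ] {m n : ℕ} (hn : m * bt R T ^ (2 * m) ≤ n)
    (hfin : Module.Finite Λ (F.obj (tp T n))) {y : tp T m ⟶ tp T m} (hy : NumTriv y)
    (hnn : ¬ IsNilpotent ((F.map y).hom : Module.End Λ (F.obj (tp T m)))) :
    numRank Λ (tp T n) ≤ finrank Λ (F.obj (tp T n)) := by
  have hR := h.real
  have hb := bt_pos h
  have hm : m ≠ 0 := by
    rintro rfl
    apply hnn
    have h0 : y ≫ 𝟙 (𝟙_ C) = 0 := (numTriv_unit_iff hR (S := 𝟙_ C) y).1 hy (𝟙 (𝟙_ C))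
    have h1 : y = 0 := by
      have := h0
      rwa [Category.comp_id] at this
    have h2 : F.map y = 0 := by rw [h1, F.map_zero]
    rw [h2]
    exact IsNilpotent.zero
  have hp1 : 1 ≤ bt R T ^ (2 * m) := Nat.one_le_pow _ _ hb
  have hmn : m ≤ n := by
    calc m = m * 1 := (mul_one m).symm
      _ ≤ m * bt R T ^ (2 * m) := Nat.mul_le_mul_left _ hp1
      _ ≤ n := hn
  have hfm := (fin_le h F hmn).1
  obtain ⟨z, e, hz, he, he'⟩ := exists_phantom hR F hy hnn
  have hdiv : bt R T ^ (2 * m) ≤ n / m := by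
    rw [Nat.le_div_iff_mul_le (Nat.pos_of_ne_zero hm), mul_comm]
    exact hn
  obtain ⟨a, ha⟩ := Nat.exists_eq_succ_of_ne_zero (by omega : n / m ≠ 0)
  have hdm := Nat.div_add_mod n m
  have hlt := Nat.mod_lt n (Nat.pos_of_ne_zero hm)
  rw [ha, Nat.mul_succ] at hdm
  rw [ha] at hdiv
  have hle : m * a + m ≤ n := by omega
  obtain ⟨hf1, hf2⟩ := fin_le h F hle
  have low : (a + 1) * numRank Λ (tp T (m * a)) ≤ finrank Λ (F.obj (tp T (m * a + m))) := by
    have hiso : ∀ a, Nonempty (tp T (m * a) ⊗ tp T m ≅ tp T (m * a + m)) := fun a => by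
      obtain ⟨i, _⟩ := exists_tp_iso T (m * a) m
      exact ⟨i⟩
    obtain ⟨i⟩ := Pool.Agent.N712.AF.tpIso T m hiso a
    obtain ⟨j⟩ := Pool.Agent.N712.AF.tpIso T m hiso (a + 1)
    have j' : tp (tp T m) (a + 1) ≅ tp T (m * a + m) := j
    have e1 : numRank Λ (tp T (m * a)) = numRank Λ (tp (tp T m) a) := by
      rw [numRank_eq, numRank_eq]
      exact (nr_congr_right hR i (𝟙 (𝟙_ C)) (by rw [Category.id_comp, Category.comp_id])).symm
    have eq := (F.mapIso j').toLinearEquiv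
    have e2 : finrank Λ (F.obj (tp T (m * a + m))) = finrank Λ (F.obj (tp (tp T m) (a + 1))) :=
      eq.finrank_eq.symm
    have : Module.Finite Λ (F.obj (tp (tp T m) (a + 1))) := Module.Finite.equiv eq.symm
    rw [e1, e2]
    exact phantom hR F hz he he' a
  obtain ⟨k, hk⟩ : ∃ k, n = k + m * a := ⟨m + n % m, by omega⟩
  have hk2 : k + 1 ≤ 2 * m := by omega
  have h3 : numRank Λ (tp T n) ≤ bt R T ^ (2 * m) * numRank Λ (tp T (m * a)) := by
    rw [hk]
    calc numRank Λ (tp T (k + m * a))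
        ≤ bt R T ^ k * cmpSeq (fun n => numRank Λ (tp T n)) (bt R T) (m * a) := le_cmp h k _
      _ ≤ bt R T ^ k * (bt R T * numRank Λ (tp T (m * a))) := Nat.mul_le_mul_left _ (cmp_le h _)
      _ = bt R T ^ (k + 1) * numRank Λ (tp T (m * a)) := by ring
      _ ≤ bt R T ^ (2 * m) * numRank Λ (tp T (m * a)) :=
          Nat.mul_le_mul_right _ (Nat.pow_le_pow_right hb hk2)
  calc numRank Λ (tp T n) ≤ bt R T ^ (2 * m) * numRank Λ (tp T (m * a)) := h3
    _ ≤ (a + 1) * numRank Λ (tp T (m * a)) := Nat.mul_le_mul_right _ hdiv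
    _ ≤ finrank Λ (F.obj (tp T (m * a + m))) := low
    _ ≤ finrank Λ (F.obj (tp T n)) := hf2

end Pool.Agent.N701.AFE5

namespace Pool.Agent.N64.AF

universe v u w t x

variable {C : Type u} [Category.{v} C] [Preadditive C] [MonoidalCategory C]
  [MonoidalPreadditive C] [SymmetricCategory C] [RightRigidCategory C]
  {Λ : Type t} [Field Λ] [CharZero Λ] [Linear Λ C] [MonoidalLinear Λ C]
  {K : Type w} [Field K] [IsAlgClosed K] [Algebra Λ K] {R : SuperRealisation C K}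

/-- E5a: an explicit lower bound for the values of a functor which does not vanish. -/
theorem lower_rate {T : C} [ExactPairing T T] (h : IsPow Λ R T) (F : C ⥤ ModuleCat.{x} Λ)
    [F.Additive] [F.Linear Λ] {m n : ℕ} (hm : ¬ Subsingleton (F.obj (tp T m)))
    (hn : m * bt R T ^ (2 * m) ≤ n) (hfin : Module.Finite Λ (F.obj (tp T n))) :
    (1 - ((m : ℝ) + 1) * (bt R T : ℝ) ^ (m + 3) *
      (Real.log ((n / 2 : ℕ) + 2) / ((n / 2 : ℕ) + 1))) * numRank Λ (tp T n) ≤
        finrank Λ (F.obj (tp T n)) := by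
  have hR := h.real
  have hb := bt_pos h
  have hb1 : (1 : ℝ) ≤ bt R T := by exact_mod_cast hb
  have hL := Pool.Agent.N701.AFE5.L_nonneg (n / 2)
  set L : ℝ := Real.log ((n / 2 : ℕ) + 2) / ((n / 2 : ℕ) + 1) with hLdef
  have hp1 : 1 ≤ bt R T ^ (2 * m) := Nat.one_le_pow _ _ hb
  have hmn : m ≤ n := by
    calc m = m * 1 := (mul_one m).symm
      _ ≤ m * bt R T ^ (2 * m) := Nat.mul_le_mul_left _ hp1
      _ ≤ n := hn
  have hfm := (Pool.Agent.N701.AFE5.fin_le h F hmn).1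
  have hfac : 0 ≤ ((m : ℝ) + 1) * (bt R T : ℝ) ^ (m + 3) * L := by positivity
  by_cases hnil : ∀ y : tp T m ⟶ tp T m, NumTriv y →
      IsNilpotent ((F.map y).hom : Module.End Λ (F.obj (tp T m)))
  · obtain ⟨l, e, z, hid, hpos, hsum, hZ⟩ := exists_chain hR (cplus_tp hR h.cplus m) F hnil
    have h1 := (hZ (tp T n) hfin).trans (Submodule.finrank_le _)
    have hnt : 0 < finrank Λ (F.obj (tp T m)) := by
      rw [Module.finrank_pos_iff]
      exact not_subsingleton_iff_nontrivial.1 hm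
    have hl : Nonempty (Fin l) := by
      by_contra hc
      rw [not_nonempty_iff] at hc
      rw [hsum, Finset.univ_eq_empty, Finset.sum_empty] at hnt
      omega
    obtain ⟨i0⟩ := hl
    have h2 : nr Λ (e i0) (𝟙 (tp T n)) ≤ finrank Λ (F.obj (tp T n)) :=
      (Finset.single_le_sum (f := fun i => nr Λ (e i) (𝟙 (tp T n))) (fun i _ => Nat.zero_le _)
        (Finset.mem_univ i0)).trans h1
    obtain ⟨r, hr, hrle⟩ := exists_rk hR (cplus_tp hR h.cplus m) (hid i0)
    rw [bt_tp] at hrle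
    obtain ⟨s, hs⟩ := Nat.exists_eq_add_of_le hrle
    have hc : IsRk R (𝟙 (tp T m) - e i0) s := by
      refine isRk_compl hr ?_
      rw [bt_tp, hs]
    have h3 := nr_add hR (hid i0) (𝟙 (tp T n))
    rw [nr_tp hR T m n, Nat.add_comm m n] at h3
    have h4 := nr_le_cmpSeq h (numIdem_compl (hid i0)) hc n
    have h5 := nr_le_cmpSeq h (hid i0) hr m
    have hr1 : 1 ≤ r := by
      by_contra hr0
      have : r = 0 := by omega
      rw [this, zero_mul] at h5
      have := hpos i0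
      omega
    have h6 := Pool.Agent.N701.AFE5.rate h m n
    rw [← hLdef] at h6
    have h7 := Pool.Agent.N701.AFE5.le_cmp h 0 n
    rw [pow_zero, one_mul, Nat.zero_add] at h7
    set c : ℝ := (cmpSeq (fun n => numRank Λ (tp T n)) (bt R T) n : ℝ) with hcdef
    have h3' : (nr Λ (e i0) (𝟙 (tp T n)) : ℝ) + nr Λ (𝟙 (tp T m) - e i0) (𝟙 (tp T n)) =
        numRank Λ (tp T (n + m)) := by exact_mod_cast h3
    have h4' : (nr Λ (𝟙 (tp T m) - e i0) (𝟙 (tp T n)) : ℝ) ≤ s * c := by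
      rw [hcdef]; exact_mod_cast h4
    have h7' : (numRank Λ (tp T n) : ℝ) ≤ c := by
      rw [hcdef]; exact_mod_cast h7
    have h2' : (nr Λ (e i0) (𝟙 (tp T n)) : ℝ) ≤ finrank Λ (F.obj (tp T n)) := by
      exact_mod_cast h2
    have hs' : (bt R T : ℝ) ^ m = r + s := by exact_mod_cast hs
    have hr1' : (1 : ℝ) ≤ r := by exact_mod_cast hr1
    have hc0 : 0 ≤ c := by rw [hcdef]; exact Nat.cast_nonneg _
    have key : (1 - ((m : ℝ) + 1) * (bt R T : ℝ) ^ (m + 3) * L) * c ≤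
        finrank Λ (F.obj (tp T n)) := by
      have e1 : (bt R T : ℝ) ^ m * (1 - ((m : ℝ) + 1) * (bt R T : ℝ) ^ 3 * L) * c =
          (bt R T : ℝ) ^ m * c - ((m : ℝ) + 1) * (bt R T : ℝ) ^ (m + 3) * L * c := by
        rw [pow_add]; ring
      rw [e1, hs'] at h6
      nlinarith
    by_cases hpos' : 0 ≤ 1 - ((m : ℝ) + 1) * (bt R T : ℝ) ^ (m + 3) * L
    · exact (mul_le_mul_of_nonneg_left h7' hpos').trans key
    · push Not at hpos'
      have h8 : (0 : ℝ) ≤ numRank Λ (tp T n) := Nat.cast_nonneg _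
      have h9 : (0 : ℝ) ≤ finrank Λ (F.obj (tp T n)) := Nat.cast_nonneg _
      nlinarith
  · push Not at hnil
    obtain ⟨y, hy, hnn⟩ := hnil
    have h1 := Pool.Agent.N701.AFE5.case2 h F hn hfin hy hnn
    have h1' : (numRank Λ (tp T n) : ℝ) ≤ finrank Λ (F.obj (tp T n)) := by exact_mod_cast h1
    have h8 : (0 : ℝ) ≤ numRank Λ (tp T n) := Nat.cast_nonneg _
    nlinarith

/-- E5b: an explicit criterion. -/
theorem explicit_criterion {T : C} [ExactPairing T T] (h : IsPow Λ R T)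
    (F : C ⥤ ModuleCat.{x} Λ) [F.Additive] [F.Linear Λ] {m n : ℕ}
    (hn : 128 * (m + 1) ^ 2 * bt R T ^ (2 * m + 6) ≤ n)
    (hfin : Module.Finite Λ (F.obj (tp T n)))
    (hlt : 2 * finrank Λ (F.obj (tp T n)) < numRank Λ (tp T n)) :
    Subsingleton (F.obj (tp T m)) := by
  by_contra hm
  have hb := bt_pos h
  have hn1 : m * bt R T ^ (2 * m) ≤ n := by
    refine le_trans ?_ hn
    refine Nat.mul_le_mul ?_ (Nat.pow_le_pow_right hb (by omega))
    nlinarith
  have h1 := lower_rate h F hm hn1 hfin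
  set A : ℝ := ((m : ℝ) + 1) * (bt R T : ℝ) ^ (m + 3) with hA
  have hb1 : (1 : ℝ) ≤ bt R T := by exact_mod_cast hb
  have hA1 : 1 ≤ A := by
    rw [hA]
    have h2 : (1 : ℝ) ≤ (bt R T : ℝ) ^ (m + 3) := one_le_pow₀ hb1
    have h3 : (0 : ℝ) ≤ m := Nat.cast_nonneg m
    nlinarith
  have hA2 : 128 * A ^ 2 ≤ n := by
    have h2 : ((128 * (m + 1) ^ 2 * bt R T ^ (2 * m + 6) : ℕ) : ℝ) ≤ n := by exact_mod_cast hn
    push_cast at h2
    refine le_trans (le_of_eq ?_) h2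
    rw [hA]
    ring
  set k : ℕ := n / 2 with hk
  have hk1 : (n : ℝ) ≤ 2 * k + 1 := by
    have : n ≤ 2 * k + 1 := by omega
    exact_mod_cast this
  have hk2 : (8 * A) ^ 2 ≤ (k : ℝ) + 2 := by nlinarith
  set x : ℝ := Real.sqrt ((k : ℝ) + 2) with hx
  have hk0 : (0 : ℝ) ≤ k := Nat.cast_nonneg k
  have hx2 : x ^ 2 = (k : ℝ) + 2 := Real.sq_sqrt (by linarith)
  have hx8 : 8 * A ≤ x := Real.le_sqrt_of_sq_le hk2
  have hx0 : 0 < x := by linarith
  have hlog : Real.log ((k : ℝ) + 2) ≤ 2 * x := by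
    rw [← hx2, Real.log_pow]
    have := Real.log_le_sub_one_of_pos hx0
    push_cast
    linarith
  have hL : Real.log ((k : ℝ) + 2) / ((k : ℝ) + 1) ≤ 1 / (2 * A) := by
    rw [div_le_div_iff₀ (by linarith) (by linarith)]
    have h2 : Real.log ((k : ℝ) + 2) * (2 * A) ≤ 2 * x * (2 * A) := by gcongr
    nlinarith
  have hhalf : A * (Real.log ((k : ℝ) + 2) / ((k : ℝ) + 1)) ≤ 1 / 2 := by
    calc A * (Real.log ((k : ℝ) + 2) / ((k : ℝ) + 1)) ≤ A * (1 / (2 * A)) := by gcongr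
      _ = 1 / 2 := by field_simp
  have h8 : (0 : ℝ) ≤ numRank Λ (tp T n) := Nat.cast_nonneg _
  have hlt' : (2 : ℝ) * finrank Λ (F.obj (tp T n)) < numRank Λ (tp T n) := by exact_mod_cast hlt
  nlinarith

end Pool.Agent.N64.AF
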